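import Pool.Agent.helper80.VD.SpecF
set_option autoImplicit false

/-! Row GSY of MP_07c750_an (project VD, block F, plan of helper80): the geodesic flow is symplectic and preserves the Lebesgue measure. -/

open scoped ContDiff Topology InnerProductSpace
open MeasureTheory Filter Set

namespace Pool.Agent.VD

theorem GSY_key {d : ℕ} (v w : P d) : omg v w = -CRO.symp v w := by
  unfold omg CRO.symp
  rw [real_inner_comm v.1 w.2]
  ring

theorem GSY_proof (hGXH : GXH_stmt) (hGUN : GUN_stmt) (hSMP : CRO.SMP_stmt) (hDT1 : CRO.DT1_stmt) (hMPR : CRO.MPR_stmt) : GSY_stmt := by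
  intro d G Φ hG hΦ
  obtain ⟨hH, _, hX, _⟩ := hGXH d G hG
  obtain ⟨h1, _⟩ := hGUN d G Φ hG hΦ
  rw [hX] at h1
  have hs := hSMP d (Ham G) Φ hH h1
  have hdet : ∀ (t : ℝ) (p : P d), |(fderiv ℝ (Φ t) p).det| = 1 := fun t p => hDT1 d (fderiv ℝ (Φ t) p) (hs t p)
  refine ⟨fun t p v w => ?_, hdet, fun t => hMPR d _ Φ h1 hdet t⟩
  rw [GSY_key, GSY_key, hs]

end Pool.Agent.VD
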