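import Pool.Agent.helper93.VD.SpecB1
set_option autoImplicit false

/-! Row NDE of MP_07c750_an (project VD, block B1, plan of helper93): the derivative of the composition. -/

open scoped ContDiff Topology InnerProductSpace
open MeasureTheory Filter Set

namespace Pool.Agent.VD

theorem NDE_strict {m : ℕ} {c C e0 : ℝ} {F : Z m → Z m} (hF : HYP c C e0 F) {b : Z m} (hb : ‖b‖ < e0) :
    HasStrictFDerivAt F (fderiv ℝ F b) b := by
  have h1 : ContDiffAt ℝ 1 F b := hF.cd.contDiffAt (Metric.isOpen_ball.mem_nhds (mem_ball_zero_iff.2 hb))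
  exact h1.hasStrictFDerivAt (by norm_num)

theorem NDE_proof : NDE_stmt := by
  intro m c C e0 F n a he0 hF ha
  obtain ⟨L, hL⟩ : ∃ L : ℕ → Z m →L[ℝ] Z m, L = fun i => if i < n then fderiv ℝ (F i) (it F i a) else fderiv ℝ (F i) 0 := ⟨_, rfl⟩
  have hL1 : ∀ i < n, L i = fderiv ℝ (F i) (it F i a) := fun i hi => by rw [hL]; exact if_pos hi
  have hL2 : ∀ i, LH c C (L i) := by
    intro i
    by_cases hi : i < n
    · rw [hL1 i hi]
      exact (hF i).lh _ (mem_ball_zero_iff.2 (ha i hi))
    · have : L i = fderiv ℝ (F i) 0 := by rw [hL]; exact if_neg hi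
      rw [this]
      exact (hF i).lh _ (Metric.mem_ball_self he0)
  have hst : ∀ k ≤ n, HasStrictFDerivAt (it F k) (pl L k) a := by
    intro k
    induction k with
    | zero => intro _; exact hasStrictFDerivAt_id a
    | succ k ih =>
      intro hk
      have h1 := ih (by omega)
      have h2 := NDE_strict (hF k) (ha k (by omega))
      rw [← hL1 k (by omega)] at h2
      exact h2.comp a h1
  exact ⟨L, hL2, hL1, hst n le_rfl, (hst n le_rfl).hasFDerivAt.fderiv⟩

end Pool.Agent.VD
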