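import Pool.Agent.helper11.VD.SpecC
import Pool.Agent.helper38.VD.GIN
set_option autoImplicit false
set_option maxSynthPendingDepth 3

/-! Row RCN of MP_07c750_an (project VD, block C, plan of helper11): the curvature depends continuously on the 2-jet of the metric. -/

open scoped ContDiff Topology InnerProductSpace
open MeasureTheory Filter Set

namespace Pool.Agent.VD

noncomputable section

section generic

variable {E : Type*} [NormedAddCommGroup E] [InnerProductSpace ℝ E] [CompleteSpace E]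

/-- the derivative of the metric with lowered indices -/
def RCN_T (A : E →L[ℝ] E →L[ℝ] E) (u v : E) : E :=
  (1 / 2 : ℝ) • (A u v + A v u - (InnerProductSpace.toDual ℝ (E)).symm ((innerSL ℝ v).comp (A.flip u)))

theorem RCN_T_norm (A : E →L[ℝ] E →L[ℝ] E) (u v : E) : ‖RCN_T A u v‖ ≤ 2 * ‖A‖ * (‖u‖ * ‖v‖) := by
  have h1 : ‖A u v‖ ≤ ‖A‖ * ‖u‖ * ‖v‖ := A.le_opNorm₂ u v
  have h2 : ‖A v u‖ ≤ ‖A‖ * ‖v‖ * ‖u‖ := A.le_opNorm₂ v u
  have h3 : ‖(InnerProductSpace.toDual ℝ (E)).symm ((innerSL ℝ v).comp (A.flip u))‖ ≤ ‖v‖ * (‖A‖ * ‖u‖) := by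
    rw [LinearIsometryEquiv.norm_map]
    refine (ContinuousLinearMap.opNorm_comp_le _ _).trans ?_
    rw [innerSL_apply_norm]
    refine mul_le_mul_of_nonneg_left ?_ (norm_nonneg _)
    refine ((A.flip).le_opNorm u).trans ?_
    rw [ContinuousLinearMap.opNorm_flip]
  unfold RCN_T
  rw [norm_smul]
  have h4 : ‖(1 / 2 : ℝ)‖ = 1 / 2 := by norm_num
  rw [h4]
  have h5 := (norm_sub_le (A u v + A v u) ((InnerProductSpace.toDual ℝ (E)).symm ((innerSL ℝ v).comp (A.flip u)))).trans (add_le_add (norm_add_le _ _) le_rfl)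
  have h6 : 0 ≤ ‖A‖ * (‖u‖ * ‖v‖) := by positivity
  nlinarith

theorem RCN_T_add (A B : E →L[ℝ] E →L[ℝ] E) (u v : E) : RCN_T (A + B) u v = RCN_T A u v + RCN_T B u v := by
  unfold RCN_T
  have h1 : (A + B).flip u = A.flip u + B.flip u := by ext; simp
  rw [h1, ContinuousLinearMap.comp_add, map_add, ← smul_add, add_apply, add_apply, add_apply, add_apply]
  congr 1
  abel

theorem RCN_T_smul (c : ℝ) (A : E →L[ℝ] E →L[ℝ] E) (u v : E) : RCN_T (c • A) u v = c • RCN_T A u v := by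
  unfold RCN_T
  have h1 : (c • A).flip u = c • A.flip u := by ext; simp
  rw [h1, ContinuousLinearMap.comp_smul, map_smulₛₗ, smul_comm c (1 / 2 : ℝ)]
  congr 1
  rw [smul_sub, smul_add]
  simp

theorem RCN_T_sub (A B : E →L[ℝ] E →L[ℝ] E) (u v : E) : RCN_T (A - B) u v = RCN_T A u v - RCN_T B u v := by
  have h : A = (A - B) + B := by abel
  have h1 := RCN_T_add (A - B) B u v
  rw [← h] at h1
  rw [h1]
  abel

theorem RCN_T_vsub (A : E →L[ℝ] E →L[ℝ] E) (u v w : E) : RCN_T A u (v - w) = RCN_T A u v - RCN_T A u w := by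
  unfold RCN_T
  rw [← smul_sub, map_sub, map_sub A, map_sub (innerSL ℝ), ContinuousLinearMap.sub_comp, map_sub, sub_apply]
  congr 1
  abel

/-- `RCN_T` as a linear map in the first variable -/
def RCN_M (u v : E) : (E →L[ℝ] E →L[ℝ] E) →ₗ[ℝ] E where
  toFun A := RCN_T A u v
  map_add' A B := RCN_T_add A B u v
  map_smul' c A := RCN_T_smul c A u v

theorem RCN_M_norm (u v : E) (A : E →L[ℝ] E →L[ℝ] E) : ‖RCN_M u v A‖ ≤ 2 * (‖u‖ * ‖v‖) * ‖A‖ := by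
  have h := RCN_T_norm A u v
  have e : 2 * ‖A‖ * (‖u‖ * ‖v‖) = 2 * (‖u‖ * ‖v‖) * ‖A‖ := by ring
  rw [e] at h
  exact h

/-- `RCN_T` as a continuous linear map in the first variable -/
def RCN_L (u v : E) : (E →L[ℝ] E →L[ℝ] E) →L[ℝ] E :=
  (RCN_M u v).mkContinuous (2 * (‖u‖ * ‖v‖)) (RCN_M_norm u v)

theorem RCN_L_apply (u v : E) (A : E →L[ℝ] E →L[ℝ] E) : RCN_L u v A = RCN_T A u v := rfl

/-- half of the curvature with lowered indices -/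
def RCN_H (A : E →L[ℝ] E →L[ℝ] E) (I : E →L[ℝ] E) (A2 : E →L[ℝ] E →L[ℝ] E →L[ℝ] E) (u v w : E) : E :=
  RCN_T (A2 u) v w - A u (I (RCN_T A v w)) + RCN_T A u (I (RCN_T A v w))

theorem RCN_H_norm (A : E →L[ℝ] E →L[ℝ] E) (I : E →L[ℝ] E) (A2 : E →L[ℝ] E →L[ℝ] E →L[ℝ] E) (M : ℝ) (hM : 1 ≤ M)
    (hA : ‖A‖ ≤ M) (hI : ‖I‖ ≤ M) (hA2 : ‖A2‖ ≤ M) (u v w : E) : ‖RCN_H A I A2 u v w‖ ≤ 8 * M ^ 3 * (‖u‖ * (‖v‖ * ‖w‖)) := by
  have hM0 : 0 ≤ M := by linarith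
  have hN : 0 ≤ ‖v‖ * ‖w‖ := by positivity
  have hz : ‖RCN_T A v w‖ ≤ 2 * M * (‖v‖ * ‖w‖) :=
    (RCN_T_norm A v w).trans (mul_le_mul_of_nonneg_right (by linarith) hN)
  have hy : ‖I (RCN_T A v w)‖ ≤ 2 * M ^ 2 * (‖v‖ * ‖w‖) := by
    refine (I.le_opNorm _).trans ?_
    refine (mul_le_mul hI hz (norm_nonneg _) hM0).trans (le_of_eq ?_)
    ring
  have h1 : ‖RCN_T (A2 u) v w‖ ≤ 2 * M * (‖u‖ * (‖v‖ * ‖w‖)) := by
    refine (RCN_T_norm (A2 u) v w).trans ?_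
    have h2 : ‖A2 u‖ ≤ M * ‖u‖ := (A2.le_opNorm u).trans (mul_le_mul_of_nonneg_right hA2 (norm_nonneg _))
    have h3 := mul_le_mul_of_nonneg_right h2 hN
    nlinarith
  have h2 : ‖A u (I (RCN_T A v w))‖ ≤ 2 * M ^ 3 * (‖u‖ * (‖v‖ * ‖w‖)) := by
    refine (A.le_opNorm₂ u _).trans ?_
    have h3 : ‖A‖ * ‖u‖ ≤ M * ‖u‖ := mul_le_mul_of_nonneg_right hA (norm_nonneg _)
    refine (mul_le_mul h3 hy (norm_nonneg _) (by positivity)).trans (le_of_eq ?_)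
    ring
  have h3 : ‖RCN_T A u (I (RCN_T A v w))‖ ≤ 4 * M ^ 3 * (‖u‖ * (‖v‖ * ‖w‖)) := by
    refine (RCN_T_norm A u _).trans ?_
    have h4 : ‖u‖ * ‖I (RCN_T A v w)‖ ≤ ‖u‖ * (2 * M ^ 2 * (‖v‖ * ‖w‖)) := mul_le_mul_of_nonneg_left hy (norm_nonneg _)
    refine (mul_le_mul (show 2 * ‖A‖ ≤ 2 * M by linarith) h4 (by positivity) (by positivity)).trans (le_of_eq ?_)
    ring
  have h4 : 0 ≤ ‖u‖ * (‖v‖ * ‖w‖) := by positivity
  have h5 : M ≤ M ^ 3 := by nlinarith [sq_nonneg M, mul_self_nonneg (M - 1)]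
  have h6 := (norm_add_le (RCN_T (A2 u) v w - A u (I (RCN_T A v w))) (RCN_T A u (I (RCN_T A v w)))).trans (add_le_add (norm_sub_le _ _) le_rfl)
  have h7 := mul_le_mul_of_nonneg_right h5 h4
  unfold RCN_H
  nlinarith

theorem RCN_H_diff (A A' : E →L[ℝ] E →L[ℝ] E) (I I' : E →L[ℝ] E) (A2 A2' : E →L[ℝ] E →L[ℝ] E →L[ℝ] E) (M s : ℝ) (hM : 1 ≤ M) (hs : 0 ≤ s)
    (hA : ‖A‖ ≤ M) (hI : ‖I‖ ≤ M) (hA' : ‖A'‖ ≤ M) (hI' : ‖I'‖ ≤ M) (dA : ‖A - A'‖ ≤ s) (dI : ‖I - I'‖ ≤ M ^ 2 * s) (dA2 : ‖A2 - A2'‖ ≤ s) (u v w : E) :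
    ‖RCN_H A I A2 u v w - RCN_H A' I' A2' u v w‖ ≤ 20 * M ^ 4 * s * (‖u‖ * (‖v‖ * ‖w‖)) := by
  have hM0 : 0 ≤ M := by linarith
  have hN : 0 ≤ ‖v‖ * ‖w‖ := by positivity
  have hz : ‖RCN_T A v w‖ ≤ 2 * M * (‖v‖ * ‖w‖) :=
    (RCN_T_norm A v w).trans (mul_le_mul_of_nonneg_right (by linarith) hN)
  have hdz : ‖RCN_T A v w - RCN_T A' v w‖ ≤ 2 * s * (‖v‖ * ‖w‖) := by
    rw [← RCN_T_sub]
    exact (RCN_T_norm _ v w).trans (mul_le_mul_of_nonneg_right (by linarith) hN)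
  have hy : ‖I (RCN_T A v w)‖ ≤ 2 * M ^ 2 * (‖v‖ * ‖w‖) := by
    refine (I.le_opNorm _).trans ?_
    refine (mul_le_mul hI hz (norm_nonneg _) hM0).trans (le_of_eq ?_)
    ring
  have hdy : ‖I (RCN_T A v w) - I' (RCN_T A' v w)‖ ≤ 4 * M ^ 3 * s * (‖v‖ * ‖w‖) := by
    have e1 : I (RCN_T A v w) - I' (RCN_T A' v w) = (I - I') (RCN_T A v w) + I' (RCN_T A v w - RCN_T A' v w) := by
      rw [sub_apply, map_sub]
      abel
    rw [e1]
    refine (norm_add_le _ _).trans ?_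
    have e2 : ‖(I - I') (RCN_T A v w)‖ ≤ M ^ 2 * s * (2 * M * (‖v‖ * ‖w‖)) :=
      ((I - I').le_opNorm _).trans (mul_le_mul dI hz (norm_nonneg _) (by positivity))
    have e3 : ‖I' (RCN_T A v w - RCN_T A' v w)‖ ≤ M * (2 * s * (‖v‖ * ‖w‖)) :=
      (I'.le_opNorm _).trans (mul_le_mul hI' hdz (norm_nonneg _) hM0)
    have e4 : M ≤ M ^ 3 := by nlinarith [sq_nonneg M, mul_self_nonneg (M - 1)]
    have e5 : M * (s * (‖v‖ * ‖w‖)) ≤ M ^ 3 * (s * (‖v‖ * ‖w‖)) := mul_le_mul_of_nonneg_right e4 (by positivity)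
    nlinarith
  have h1 : ‖RCN_T (A2 u) v w - RCN_T (A2' u) v w‖ ≤ 2 * s * (‖u‖ * (‖v‖ * ‖w‖)) := by
    rw [← RCN_T_sub, ← sub_apply]
    refine (RCN_T_norm ((A2 - A2') u) v w).trans ?_
    have h2 : ‖(A2 - A2') u‖ ≤ s * ‖u‖ := ((A2 - A2').le_opNorm u).trans (mul_le_mul_of_nonneg_right dA2 (norm_nonneg _))
    have h3 := mul_le_mul_of_nonneg_right h2 hN
    nlinarith
  have h2 : ‖A u (I (RCN_T A v w)) - A' u (I' (RCN_T A' v w))‖ ≤ 6 * M ^ 4 * s * (‖u‖ * (‖v‖ * ‖w‖)) := by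
    have e1 : A u (I (RCN_T A v w)) - A' u (I' (RCN_T A' v w)) = (A - A') u (I (RCN_T A v w)) + A' u (I (RCN_T A v w) - I' (RCN_T A' v w)) := by
      rw [sub_apply, sub_apply, map_sub]
      abel
    rw [e1]
    refine (norm_add_le _ _).trans ?_
    have e2 : ‖(A - A') u (I (RCN_T A v w))‖ ≤ s * ‖u‖ * (2 * M ^ 2 * (‖v‖ * ‖w‖)) := by
      refine ((A - A').le_opNorm₂ u _).trans ?_
      exact mul_le_mul (mul_le_mul_of_nonneg_right dA (norm_nonneg _)) hy (norm_nonneg _) (by positivity)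
    have e3 : ‖A' u (I (RCN_T A v w) - I' (RCN_T A' v w))‖ ≤ M * ‖u‖ * (4 * M ^ 3 * s * (‖v‖ * ‖w‖)) := by
      refine (A'.le_opNorm₂ u _).trans ?_
      exact mul_le_mul (mul_le_mul_of_nonneg_right hA' (norm_nonneg _)) hdy (norm_nonneg _) (by positivity)
    have e4 : M ^ 2 ≤ M ^ 4 := pow_le_pow_right₀ hM (by norm_num)
    have e5 : M ^ 2 * (s * (‖u‖ * (‖v‖ * ‖w‖))) ≤ M ^ 4 * (s * (‖u‖ * (‖v‖ * ‖w‖))) := mul_le_mul_of_nonneg_right e4 (by positivity)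
    nlinarith
  have h3 : ‖RCN_T A u (I (RCN_T A v w)) - RCN_T A' u (I' (RCN_T A' v w))‖ ≤ 12 * M ^ 4 * s * (‖u‖ * (‖v‖ * ‖w‖)) := by
    have e1 : RCN_T A u (I (RCN_T A v w)) - RCN_T A' u (I' (RCN_T A' v w)) =
        RCN_T (A - A') u (I (RCN_T A v w)) + RCN_T A' u (I (RCN_T A v w) - I' (RCN_T A' v w)) := by
      rw [RCN_T_sub, RCN_T_vsub]
      abel
    rw [e1]
    refine (norm_add_le _ _).trans ?_
    have e2 : ‖RCN_T (A - A') u (I (RCN_T A v w))‖ ≤ 2 * s * (‖u‖ * (2 * M ^ 2 * (‖v‖ * ‖w‖))) := by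
      refine (RCN_T_norm (A - A') u _).trans ?_
      exact mul_le_mul (by linarith) (mul_le_mul_of_nonneg_left hy (norm_nonneg _)) (by positivity) (by positivity)
    have e3 : ‖RCN_T A' u (I (RCN_T A v w) - I' (RCN_T A' v w))‖ ≤ 2 * M * (‖u‖ * (4 * M ^ 3 * s * (‖v‖ * ‖w‖))) := by
      refine (RCN_T_norm A' u _).trans ?_
      exact mul_le_mul (by linarith) (mul_le_mul_of_nonneg_left hdy (norm_nonneg _)) (by positivity) (by positivity)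
    have e4 : M ^ 2 ≤ M ^ 4 := pow_le_pow_right₀ hM (by norm_num)
    have e5 : M ^ 2 * (s * (‖u‖ * (‖v‖ * ‖w‖))) ≤ M ^ 4 * (s * (‖u‖ * (‖v‖ * ‖w‖))) := mul_le_mul_of_nonneg_right e4 (by positivity)
    nlinarith
  have e0 : RCN_H A I A2 u v w - RCN_H A' I' A2' u v w = (RCN_T (A2 u) v w - RCN_T (A2' u) v w) - (A u (I (RCN_T A v w)) - A' u (I' (RCN_T A' v w))) +
      (RCN_T A u (I (RCN_T A v w)) - RCN_T A' u (I' (RCN_T A' v w))) := by
    unfold RCN_H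
    abel
  rw [e0]
  have h6 := (norm_add_le ((RCN_T (A2 u) v w - RCN_T (A2' u) v w) - (A u (I (RCN_T A v w)) - A' u (I' (RCN_T A' v w)))) (RCN_T A u (I (RCN_T A v w)) - RCN_T A' u (I' (RCN_T A' v w)))).trans
    (add_le_add (norm_sub_le _ _) le_rfl)
  have e4 : 1 ≤ M ^ 4 := one_le_pow₀ hM
  have e5 : 1 * (s * (‖u‖ * (‖v‖ * ‖w‖))) ≤ M ^ 4 * (s * (‖u‖ * (‖v‖ * ‖w‖))) := mul_le_mul_of_nonneg_right e4 (by positivity)
  nlinarith

end generic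

theorem RCN_chr {d : ℕ} {G : V d → V d →L[ℝ] V d} (hG : IsMetric G) (x u v : V d) : Chr G x u v = IG G x (RCN_L u v (fderiv ℝ G x)) := by
  have h1 : HasFDerivAt (fun y => ⟪G y u, v⟫_ℝ) ((innerSL ℝ v).comp ((fderiv ℝ G x).flip u)) x := by
    have h2 : HasFDerivAt G (fderiv ℝ G x) x := ((hG.smooth.differentiable (by simp)) x).hasFDerivAt
    have h3 : HasFDerivAt (fun y => G y u) ((ContinuousLinearMap.apply ℝ (V d) u).comp (fderiv ℝ G x)) x :=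
      (ContinuousLinearMap.apply ℝ (V d) u).hasFDerivAt.comp x h2
    have h4 := (innerSL ℝ v).hasFDerivAt.comp x h3
    have h5 : (fun y => ⟪G y u, v⟫_ℝ) = (innerSL ℝ v) ∘ fun y => G y u := by
      funext y
      show ⟪G y u, v⟫_ℝ = ⟪v, G y u⟫_ℝ
      rw [real_inner_comm]
    rw [h5]
    exact h4
  rw [RCN_L_apply]
  unfold Chr IG RCN_T gradient
  rw [h1.fderiv]

/-- the derivative of the Christoffel symbols -/
theorem RCN_dchr {d : ℕ} {G : V d → V d →L[ℝ] V d} (hG : IsMetric G) (x u v w : V d) :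
    fderiv ℝ (fun y => Chr G y v w) x u =
      IG G x (RCN_T (fderiv ℝ (fderiv ℝ G) x u) v w) - IG G x (fderiv ℝ G x u (IG G x (RCN_T (fderiv ℝ G x) v w))) := by
  obtain ⟨_, _, _, hsm, hder⟩ := GIN_proof d G hG
  have h1 : (fun y => Chr G y v w) = fun y => IG G y (RCN_L v w (fderiv ℝ G y)) := by
    funext y
    exact RCN_chr hG y v w
  have h2 : HasFDerivAt (IG G) (fderiv ℝ (IG G) x) x := ((hsm.differentiable (by simp)) x).hasFDerivAt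
  have h3 : ContDiff ℝ ∞ (fderiv ℝ G) := (contDiff_infty_iff_fderiv.1 hG.smooth).2
  have h4 : HasFDerivAt (fderiv ℝ G) (fderiv ℝ (fderiv ℝ G) x) x := ((h3.differentiable (by simp)) x).hasFDerivAt
  have h5 : HasFDerivAt (fun y => RCN_L v w (fderiv ℝ G y)) ((RCN_L v w).comp (fderiv ℝ (fderiv ℝ G) x)) x :=
    (RCN_L v w).hasFDerivAt.comp x h4
  have h6 := h2.clm_apply h5
  rw [h1, h6.fderiv, add_apply, ContinuousLinearMap.flip_apply, hder x u, neg_apply, sub_eq_add_neg]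
  rfl

theorem RCN_riem {d : ℕ} {G : V d → V d →L[ℝ] V d} (hG : IsMetric G) (x u v w : V d) :
    G x (Riem G x u v w) = RCN_H (fderiv ℝ G x) (IG G x) (fderiv ℝ (fderiv ℝ G) x) u v w - RCN_H (fderiv ℝ G x) (IG G x) (fderiv ℝ (fderiv ℝ G) x) v u w := by
  obtain ⟨hinv, _⟩ := GIN_proof d G hG
  have h1 : ∀ z, G x (IG G x z) = z := fun z => (hinv x z).2
  unfold Riem
  rw [RCN_dchr hG, RCN_dchr hG, RCN_chr hG x u (Chr G x v w), RCN_chr hG x v (Chr G x u w), RCN_chr hG x v w, RCN_chr hG x u w]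
  simp only [map_sub, map_add, h1, RCN_L_apply]
  unfold RCN_H
  abel

theorem RCN_inv {d : ℕ} {G G' : V d → V d →L[ℝ] V d} (hG : IsMetric G) (hG' : IsMetric G') (x : V d) (M s : ℝ) (hM : 1 ≤ M) (hs : 0 ≤ s)
    (h : ‖IG G x‖ ≤ M) (h' : ‖IG G' x‖ ≤ M) (hd : ‖G x - G' x‖ ≤ s) : ‖IG G x - IG G' x‖ ≤ M ^ 2 * s := by
  have hM0 : 0 ≤ M := by linarith
  refine ContinuousLinearMap.opNorm_le_bound _ (by positivity) fun z => ?_
  have e1 : (IG G x - IG G' x) z = -(IG G x ((G x - G' x) (IG G' x z))) := by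
    rw [sub_apply, sub_apply, map_sub, ((GIN_proof d G hG).1 x (IG G' x z)).1, ((GIN_proof d G' hG').1 x z).2]
    abel
  rw [e1, norm_neg]
  have e2 : ‖IG G' x z‖ ≤ M * ‖z‖ := (ContinuousLinearMap.le_opNorm _ _).trans (mul_le_mul_of_nonneg_right h' (norm_nonneg _))
  have e3 : ‖(G x - G' x) (IG G' x z)‖ ≤ s * (M * ‖z‖) := (ContinuousLinearMap.le_opNorm _ _).trans (mul_le_mul hd e2 (norm_nonneg _) hs)
  refine (ContinuousLinearMap.le_opNorm _ _).trans ((mul_le_mul h e3 (norm_nonneg _) hM0).trans (le_of_eq ?_))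
  ring

theorem RCN_it1 {d : ℕ} (f : V d → V d →L[ℝ] V d) (x : V d) : ‖iteratedFDeriv ℝ 1 f x‖ = ‖fderiv ℝ f x‖ := norm_iteratedFDeriv_one f

theorem RCN_it2 {d : ℕ} (f : V d → V d →L[ℝ] V d) (x : V d) : ‖iteratedFDeriv ℝ 2 f x‖ = ‖fderiv ℝ (fderiv ℝ f) x‖ := by
  rw [← norm_iteratedFDeriv_one (fderiv ℝ f), norm_iteratedFDeriv_fderiv]

theorem RCN_proof : RCN_stmt := by
  intro d M hM
  have hM0 : 0 ≤ M := by linarith
  refine ⟨40 * M ^ 4, by have := one_le_pow₀ (n := 4) hM; linarith, ?_⟩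
  intro G G' x s hG hG' hs hb hi hi' hd u v
  have hA := (hb 1 (by norm_num)).1
  have hA' := (hb 1 (by norm_num)).2
  have hA2 := (hb 2 le_rfl).1
  have d0 := hd 0 (by norm_num)
  have d1 := hd 1 (by norm_num)
  have d2 := hd 2 le_rfl
  rw [norm_iteratedFDeriv_zero] at d0
  rw [RCN_it1] at hA hA' d1
  rw [RCN_it2] at hA2 d2
  have hdG : Differentiable ℝ G := hG.smooth.differentiable (by simp)
  have hdG' : Differentiable ℝ G' := hG'.smooth.differentiable (by simp)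
  have hddG : Differentiable ℝ (fderiv ℝ G) := ((contDiff_infty_iff_fderiv.1 hG.smooth).2).differentiable (by simp)
  have hddG' : Differentiable ℝ (fderiv ℝ G') := ((contDiff_infty_iff_fderiv.1 hG'.smooth).2).differentiable (by simp)
  have e1 : fderiv ℝ (fun y => G y - G' y) = fun y => fderiv ℝ G y - fderiv ℝ G' y := by
    funext y
    exact fderiv_fun_sub (hdG y) (hdG' y)
  rw [e1] at d1 d2
  rw [fderiv_fun_sub (hddG x) (hddG' x)] at d2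
  have hI := RCN_inv hG hG' x M s hM hs hi hi' d0
  have hN : 0 ≤ ‖u‖ ^ 2 * ‖v‖ ^ 2 := by positivity
  have k1 : ∀ a b c : V d, ‖RCN_H (fderiv ℝ G x) (IG G x) (fderiv ℝ (fderiv ℝ G) x) a b c - RCN_H (fderiv ℝ G' x) (IG G' x) (fderiv ℝ (fderiv ℝ G') x) a b c‖ ≤
      20 * M ^ 4 * s * (‖a‖ * (‖b‖ * ‖c‖)) := fun a b c =>
    RCN_H_diff _ _ _ _ _ _ M s hM hs hA hi hA' hi' d1 hI d2 a b c
  have k2 : ∀ a b c : V d, ‖RCN_H (fderiv ℝ G x) (IG G x) (fderiv ℝ (fderiv ℝ G) x) a b c‖ ≤ 8 * M ^ 3 * (‖a‖ * (‖b‖ * ‖c‖)) := fun a b c =>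
    RCN_H_norm _ _ _ M hM hA hi hA2 a b c
  constructor
  · rw [← inner_sub_left, RCN_riem hG, RCN_riem hG']
    have e3 : ∀ a b a' b' : V d, a - b - (a' - b') = (a - a') - (b - b') := fun a b a' b' => by abel
    rw [e3]
    refine (abs_real_inner_le_norm _ _).trans ?_
    have e4 := (norm_sub_le (RCN_H (fderiv ℝ G x) (IG G x) (fderiv ℝ (fderiv ℝ G) x) u v v - RCN_H (fderiv ℝ G' x) (IG G' x) (fderiv ℝ (fderiv ℝ G') x) u v v)
      (RCN_H (fderiv ℝ G x) (IG G x) (fderiv ℝ (fderiv ℝ G) x) v u v - RCN_H (fderiv ℝ G' x) (IG G' x) (fderiv ℝ (fderiv ℝ G') x) v u v)).trans (add_le_add (k1 u v v) (k1 v u v))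
    refine (mul_le_mul_of_nonneg_right e4 (norm_nonneg _)).trans (le_of_eq ?_)
    ring
  · rw [RCN_riem hG]
    refine (abs_real_inner_le_norm _ _).trans ?_
    have e4 := (norm_sub_le (RCN_H (fderiv ℝ G x) (IG G x) (fderiv ℝ (fderiv ℝ G) x) u v v) (RCN_H (fderiv ℝ G x) (IG G x) (fderiv ℝ (fderiv ℝ G) x) v u v)).trans (add_le_add (k2 u v v) (k2 v u v))
    have e5 : M ^ 3 ≤ M ^ 4 := pow_le_pow_right₀ hM (by norm_num)
    have e6 := mul_le_mul_of_nonneg_right e5 hN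
    have e7 : 0 ≤ M ^ 4 * (‖u‖ ^ 2 * ‖v‖ ^ 2) := by positivity
    have e8 := mul_le_mul_of_nonneg_right e4 (norm_nonneg u)
    nlinarith

end

end Pool.Agent.VD
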